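import Pool.Agent.Q161.ESV.Stm2

set_option autoImplicit false

open NumberField IsDedekindDomain Finset

namespace Pool.Agent.Q254.ESV

open Pool.Agent.Q161.ESV

theorem sep2 {V : Type} [AddCommGroup V] (hV : ∀ v : V, v + v = 0) (v : V)
    (h : ∀ χ : V →+ ZMod 2, χ v = 0) : v = 0 := by
  let _inst : Module (ZMod 2) V := AddCommGroup.zmodModule (n := 2) (fun x => by
    rw [two_nsmul]
    exact hV x)
  exact (Module.forall_dual_apply_eq_zero_iff (ZMod 2) v).1 (fun φ => h φ.toAddMonoidHom)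

theorem zmod2_eq {a b : ZMod 2} (h : a = 1 ↔ b = 1) : a = b := by
  revert h
  revert a b
  decide

theorem key {F K : Type} [Field F] [NumberField F] [Field K] [NumberField K] [Algebra F K]
    {W : Type} [AddCommGroup W] [DistribMulAction (GF F) W] {V : Type} [AddCommGroup V]
    [DistribMulAction (K ≃ₐ[F] K) V] {e : K →ₐ[F] AlgebraicClosure F} {i : V →+ W}
    (hS : St e i) (hV : ∀ v : V, v + v = 0) {c c' : GF F → W} (hc : ∀ σ, c σ + c σ = 0)
    (hc' : ∀ σ, c' σ + c' σ = 0) {Δ Δ' : (V →+ ZMod 2) → K} (hK : Kum e i c Δ)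
    (hK' : Kum e i c' Δ') (hsq : ∀ χ, IsSquare (Δ χ * Δ' χ)) (ρ : GF F) (hρ : Rs e ρ 1) :
    c ρ = c' ρ := by
  obtain ⟨v, hv⟩ := (hS.im _).1 (hc ρ)
  obtain ⟨v', hv'⟩ := (hS.im _).1 (hc' ρ)
  have hvv : v = v' := by
    rw [← sub_eq_zero]
    refine sep2 hV _ fun χ => ?_
    rw [map_sub, sub_eq_zero]
    have htw : tw (1 : K ≃ₐ[F] K) χ = χ := by
      ext v
      simp [tw]
    obtain ⟨s, hs⟩ := IsAlgClosed.exists_pow_nat_eq (e (Δ χ)) (n := 2) (by norm_num)
    obtain ⟨s', hs'⟩ := IsAlgClosed.exists_pow_nat_eq (e (Δ' χ)) (n := 2) (by norm_num)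
    have h1 := hK.gal χ ρ 1 hρ htw v hv s hs
    have h2 := hK'.gal χ ρ 1 hρ htw v' hv' s' hs'
    have hs0 : s ≠ 0 := by
      rintro rfl
      have : e (Δ χ) = 0 := by
        rw [← hs]
        simp
      exact hK.ne χ ((map_eq_zero e).1 this)
    have hs0' : s' ≠ 0 := by
      rintro rfl
      have : e (Δ' χ) = 0 := by
        rw [← hs']
        simp
      exact hK'.ne χ ((map_eq_zero e).1 this)
    obtain ⟨y, hy⟩ := hsq χ
    have h3 : (s * s') ^ 2 = (e y) ^ 2 := by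
      rw [mul_pow, hs, hs', ← map_mul, hy, map_mul]
      ring
    have hey : ρ (e y) = e y := by
      have := hρ y
      simpa using this
    have h4 : ρ (s * s') = s * s' := by
      rcases sq_eq_sq_iff_eq_or_eq_neg.1 h3 with h | h
      · rw [h, hey]
      · rw [h, map_neg, hey]
    have hne : s * s' ≠ 0 := mul_ne_zero hs0 hs0'
    have h2ne : (2 : AlgebraicClosure F) ≠ 0 := two_ne_zero
    rw [map_mul, h1, h2] at h4
    apply zmod2_eq
    by_cases ha : χ v = 1 <;> by_cases hb : χ v' = 1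
    · simp [ha, hb]
    · rw [if_pos ha, if_neg hb] at h4
      exfalso
      have : 2 * (s * s') = 0 := by linear_combination -h4
      exact (mul_ne_zero h2ne hne) this
    · rw [if_neg ha, if_pos hb] at h4
      exfalso
      have : 2 * (s * s') = 0 := by linear_combination -h4
      exact (mul_ne_zero h2ne hne) this
    · simp [ha, hb]
  rw [← hv, ← hv', hvv]

theorem fib : S_CHI → S_FIB := by
  intro hCHI F K _ _ _ _ _ _ W _ _ V _ _ _ e i hS hV
  classical
  have hres := (hCHI F).2.2 K e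
  have : FiniteDimensional F K := by
    have : FiniteDimensional ℚ K := inferInstance
    exact Module.Finite.of_restrictScalars_finite ℚ F K
  have : Finite (K ≃ₐ[F] K) := inferInstance
  have : Finite ((K ≃ₐ[F] K) → V) := inferInstance
  refine ⟨Nat.card ((K ≃ₐ[F] K) → V), Nat.card_pos, ?_⟩
  intro D 𝒞 Δ h1 h2
  rcases 𝒞.eq_empty_or_nonempty with h0 | ⟨c1, hc1⟩
  · simp [h0]
  -- lifts
  have hlift : ∀ g : K ≃ₐ[F] K, ∃ σ : GF F, (∃ τ : GF F, Rs e τ g) → Rs e σ g := by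
    intro g
    by_cases h : ∃ τ : GF F, Rs e τ g
    · obtain ⟨τ, hτ⟩ := h
      exact ⟨τ, fun _ => hτ⟩
    · exact ⟨1, fun h' => absurd h' h⟩
  choose L hL using hlift
  have hval : ∀ (c : GF F → W), c ∈ 𝒞 → ∀ σ : GF F, ∃ v : V, i v = c σ := fun c hc σ =>
    (hS.im _).1 ((h1 c hc).2.1 σ)
  have hval2 : ∀ (c : 𝒞) (σ : GF F), ∃ v : V, i v = c.1 σ := fun c σ => hval c.1 c.2 σ
  choose v hv using hval2
  have hinj : Function.Injective (fun (c : 𝒞) (g : K ≃ₐ[F] K) => v c (L g)) := by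
    intro c c' hcc
    have hcc' : ∀ g, v c (L g) = v c' (L g) := fun g => congrFun hcc g
    apply Subtype.ext
    funext σ
    obtain ⟨g, hg⟩ := hres σ
    have hLg := hL g ⟨σ, hg⟩
    have hρ : Rs e ((L g)⁻¹ * σ) 1 := by
      intro x
      have e1 : ((L g)⁻¹ * σ) (e x) = (L g)⁻¹ (σ (e x)) := rfl
      rw [e1, hg x, ← hLg x]
      change (L g)⁻¹ ((L g) (e x)) = _
      have : (L g)⁻¹ ((L g) (e x)) = ((L g)⁻¹ * (L g)) (e x) := rfl
      rw [this, inv_mul_cancel]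
      rfl
    have hk := key hS hV (h1 c.1 c.2).2.1 (h1 c'.1 c'.2).2.1 (h1 c.1 c.2).2.2 (h1 c'.1 c'.2).2.2
      (h2 c.1 c.2 c'.1 c'.2) _ hρ
    have e2 : σ = L g * ((L g)⁻¹ * σ) := by group
    have e3 := (h1 c.1 c.2).1.1 (L g) ((L g)⁻¹ * σ)
    have e4 := (h1 c'.1 c'.2).1.1 (L g) ((L g)⁻¹ * σ)
    rw [e2, e3, e4, hk, ← hv c (L g), ← hv c' (L g), hcc' g]
  have := Nat.card_le_card_of_injective _ hinj
  simpa using this

end Pool.Agent.Q254.ESV

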