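import Pool.Agent.Q161.ESV.Stm2

set_option autoImplicit false

open NumberField IsDedekindDomain Finset

namespace Pool.Agent.Q254.ESV

open Pool.Agent.Q161.ESV Topology

theorem isOpen_ev {k K : Type} [Field k] [Field K] [Algebra k K] [Algebra.IsIntegral k K] (x : K)
    (P : K → Prop) : IsOpen {τ : K ≃ₐ[k] K | P (τ x)} := by
  rw [isOpen_iff_forall_mem_open]
  intro τ0 h0
  have hfin : FiniteDimensional k (IntermediateField.adjoin k {x}) :=
    IntermediateField.adjoin.finiteDimensional (Algebra.IsIntegral.isIntegral x)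
  refine ⟨(fun τ => τ0 * τ) '' ((IntermediateField.adjoin k {x}).fixingSubgroup :
    Set (K ≃ₐ[k] K)), ?_, ?_, ?_⟩
  · rintro _ ⟨τ, hτ, rfl⟩
    have hx : τ x = x := (IntermediateField.mem_fixingSubgroup_iff _ τ).1 hτ x
      (IntermediateField.mem_adjoin_simple_self k x)
    show P (τ0 (τ x))
    rw [hx]
    exact h0
  · exact (Homeomorph.mulLeft τ0).isOpenMap _ (IntermediateField.fixingSubgroup_isOpen _)
  · exact ⟨1, one_mem _, mul_one _⟩

theorem isClosed_ev {k K : Type} [Field k] [Field K] [Algebra k K] [Algebra.IsIntegral k K] (x : K)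
    (P : K → Prop) : IsClosed {τ : K ≃ₐ[k] K | P (τ x)} := by
  rw [← isOpen_compl_iff]
  exact isOpen_ev x (fun y => ¬ P y)

theorem inc : S_INR → S_INC := by
  intro hINR l _ hl E hE D hD hD1 ϖ hϖ
  have hG : IsGalois ℚ_[l] (PadicAlgCl l) := inferInstance
  have hc : CompactSpace (PadicAlgCl l ≃ₐ[ℚ_[l]] PadicAlgCl l) := inferInstance
  let t : {z : PadicAlgCl l // ‖z‖ ≤ 1} → Set (PadicAlgCl l ≃ₐ[ℚ_[l]] PadicAlgCl l) := fun z =>
    {τ | Ga E τ ∧ τ ϖ = -ϖ ∧ ‖τ z.1 - z.1‖ < 1}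
  have htc : ∀ z, IsClosed (t z) := by
    intro z
    have h1 : IsClosed {τ : PadicAlgCl l ≃ₐ[ℚ_[l]] PadicAlgCl l | Ga E τ} := by
      have : {τ : PadicAlgCl l ≃ₐ[ℚ_[l]] PadicAlgCl l | Ga E τ} =
          ⋂ c ∈ E, {τ : PadicAlgCl l ≃ₐ[ℚ_[l]] PadicAlgCl l | τ c = c} := by
        ext τ
        simp [Ga]
      rw [this]
      exact isClosed_biInter fun c _ => isClosed_ev c (fun y => y = c)
    have h2 := isClosed_ev (k := ℚ_[l]) ϖ (fun y => y = -ϖ)
    have h3 := isClosed_ev (k := ℚ_[l]) z.1 (fun y => ‖y - z.1‖ < 1)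
    exact h1.inter (h2.inter h3)
  have hst : ∀ s : Finset {z : PadicAlgCl l // ‖z‖ ≤ 1}, (⋂ i ∈ s, t i).Nonempty := by
    classical
    intro s
    obtain ⟨σ, h1, h2, h3⟩ := hINR l hl E hE D hD hD1 ϖ hϖ (s.image Subtype.val) (by
      intro z hz
      obtain ⟨a, _, rfl⟩ := Finset.mem_image.1 hz
      exact a.2)
    refine ⟨σ, ?_⟩
    simp only [Set.mem_iInter]
    intro i hi
    exact ⟨h1, h2, h3 _ (Finset.mem_image_of_mem _ hi)⟩
  obtain ⟨σ, hσ⟩ := CompactSpace.iInter_nonempty htc hst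
  rw [Set.mem_iInter] at hσ
  have h0 := hσ ⟨0, by simp⟩
  exact ⟨σ, h0.1, h0.2.1, fun z hz => (hσ ⟨z, hz⟩).2.2⟩

end Pool.Agent.Q254.ESV

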